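import Pool.Agent.H454R3.Att.Main

/-!
# Every attractive computably enumerable degree is high
-/

set_option autoImplicit false

namespace Pool.Agent.Results.MP_ef7593_lc.AttractiveHigh

open Pool.Agent.H454R3.Att Pool.Agent.Helper578.JD

/-- Sanity check: two sets have the same class in the metric space exactly if they are coarsely
similar. -/
theorem sanity_classes (A B : Set ℕ) : cls A = cls B ↔
    Filter.Tendsto (fun n : ℕ => ((symmDiff A B ∩ Set.Iio n).ncard : ℝ) / n) Filter.atTop
      (nhds 0) := cls_eq_iff A B

/-- Sanity check: the sets which are c.e. relative to `A` (`REIn A`, see `dom_iff`) are exactly the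
sets which are many-one reducible to the jump of `A`. -/
theorem sanity_jump (A S : Set ℕ) : Oracle.REIn A (fun n => n ∈ S) ↔
    ∃ g : ℕ → ℕ, Computable g ∧ ∀ n, n ∈ S ↔ g n ∈ jump A := REIn_iff_jump

/-- Every attractive c.e. degree is high: if the Turing degree of `A` contains a c.e. set, and
`H(A, B) = 1/2` for almost every `B`, then `A' ≡_T 0''`. -/
theorem result (A : Set ℕ) (hce : ∃ W : Set ℕ, REPred (fun n => n ∈ W) ∧ TEqv W A)
    (hatt : Attractive A) : High A := by
  obtain ⟨W, hW, hWA⟩ := hce
  exact main hW hWA hatt

end Pool.Agent.Results.MP_ef7593_lc.AttractiveHigh
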